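import Mathlib

namespace Pool.Agent.P.MP_abbe90_al

open TensorProduct Coalgebra

/-- A rack bialgebra structure on a coassociative counital coalgebra `C` over a field `k`:
a group-like element `one` and a coalgebra morphism `op : C ⊗ C → C`, `op (x ⊗ y) = x ◁ y`. -/
structure RackBialgebra (k C : Type*) [Field k] [AddCommGroup C] [Module k C] [Coalgebra k C] where
  /-- the group-like element -/
  one : C
  /-- the rack product, a morphism of counital coalgebras -/
  op : C ⊗[k] C →ₗc[k] C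
  comul_one : comul (R := k) one = one ⊗ₜ[k] one
  counit_one : counit (R := k) one = 1
  /-- `(x ◁ y) ◁ z = (x ◁ z₁) ◁ (y ◁ z₂)` -/
  self_distrib : ∀ x y z : C, op (op (x ⊗ₜ[k] y) ⊗ₜ[k] z) =
    op (TensorProduct.map op.toLinearMap op.toLinearMap
      (tensorTensorTensorComm k C C C C ((x ⊗ₜ[k] y) ⊗ₜ[k] comul (R := k) z)))
  op_one : ∀ x : C, op (x ⊗ₜ[k] one) = x
  one_op : ∀ x : C, op (one ⊗ₜ[k] x) = counit (R := k) x • one
  counit_op : ∀ x y : C, counit (R := k) (op (x ⊗ₜ[k] y)) = counit (R := k) x * counit (R := k) y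

/-- A Yetter-Drinfeld rack structure over the bialgebra `H` on the rack bialgebra `(C, R)`. -/
structure YDRack {k C : Type*} [Field k] [AddCommGroup C] [Module k C] [Coalgebra k C]
    (R : RackBialgebra k C) (H : Type*) [Ring H] [Bialgebra k H] where
  /-- the right action `act (x ⊗ h) = x · h` -/
  act : C ⊗[k] H →ₗ[k] C
  act_one : ∀ x : C, act (x ⊗ₜ[k] (1 : H)) = x
  act_mul : ∀ (x : C) (g h : H), act (x ⊗ₜ[k] (g * h)) = act (act (x ⊗ₜ[k] g) ⊗ₜ[k] h)
  /-- `(x · h)₁ ⊗ (x · h)₂ = x₁ · h₁ ⊗ x₂ · h₂` -/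
  comul_act : ∀ (x : C) (h : H), comul (R := k) (act (x ⊗ₜ[k] h)) =
    TensorProduct.map act act
      (tensorTensorTensorComm k C C H H (comul (R := k) x ⊗ₜ[k] comul (R := k) h))
  counit_act : ∀ (x : C) (h : H),
    counit (R := k) (act (x ⊗ₜ[k] h)) = counit (R := k) x * counit (R := k) h
  /-- the morphism of counital coalgebras -/
  q : C →ₗc[k] H
  q_one : q R.one = 1
  /-- `a ◁ b = a · q b` -/
  op_eq : ∀ a b : C, R.op (a ⊗ₜ[k] b) = act (a ⊗ₜ[k] q b)
  /-- `h₁ q (a · h₂) = q a * h` -/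
  yd : ∀ (a : C) (h : H),
    LinearMap.mul' k H
      (LinearMap.lTensor H (q.toLinearMap ∘ₗ act ∘ₗ TensorProduct.mk k C H a) (comul (R := k) h))
      = q a * h

end Pool.Agent.P.MP_abbe90_al
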