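import Mathlib
import Pool.Agent.P.MP_abbe90_al.Defs

/-! A five-dimensional rack bialgebra with basis `e 0 = 1, e 1 = u, e 2 = v, e 3 = b, e 4 = c`:
`u, v` primitive, `Δ b = b ⊗ 1 + 1 ⊗ b + u ⊗ v`, `Δ c = c ⊗ 1 + 1 ⊗ c + u ⊗ u`,
`u ◁ v = u`, `v ◁ u = -u`, `b ◁ u = -c`, `b ◁ v = b`, `c ◁ v = 2 c`. -/

namespace Pool.Agent.P.MP_abbe90_al

open TensorProduct Coalgebra Module

universe u v

/-- The underlying vector space. -/
def V (k : Type u) : Type u := Fin 5 → k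

variable (k : Type u) [Field k]

instance : AddCommGroup (V k) := inferInstanceAs (AddCommGroup (Fin 5 → k))
instance : Module k (V k) := inferInstanceAs (Module k (Fin 5 → k))

/-- The standard basis. -/
noncomputable def e : Basis (Fin 5) k (V k) := Pi.basisFun k (Fin 5)

lemma finrank_V : Module.finrank k (V k) = 5 := by
  rw [Module.finrank_eq_card_basis (e k)]; simp

/-- Comultiplication. -/
noncomputable def dV : V k →ₗ[k] V k ⊗[k] V k :=
  (e k).constr k ![e k 0 ⊗ₜ e k 0, e k 1 ⊗ₜ e k 0 + e k 0 ⊗ₜ e k 1, e k 2 ⊗ₜ e k 0 + e k 0 ⊗ₜ e k 2,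
    e k 3 ⊗ₜ e k 0 + e k 0 ⊗ₜ e k 3 + e k 1 ⊗ₜ e k 2,
    e k 4 ⊗ₜ e k 0 + e k 0 ⊗ₜ e k 4 + e k 1 ⊗ₜ e k 1]

/-- Counit. -/
noncomputable def cV : V k →ₗ[k] k := (e k).constr k ![1, 0, 0, 0, 0]

lemma dV0 : dV k (e k 0) = e k 0 ⊗ₜ e k 0 := by simp [dV]
lemma dV1 : dV k (e k 1) = e k 1 ⊗ₜ e k 0 + e k 0 ⊗ₜ e k 1 := by simp [dV]
lemma dV2 : dV k (e k 2) = e k 2 ⊗ₜ e k 0 + e k 0 ⊗ₜ e k 2 := by simp [dV]
lemma dV3 : dV k (e k 3) = e k 3 ⊗ₜ e k 0 + e k 0 ⊗ₜ e k 3 + e k 1 ⊗ₜ e k 2 := by simp [dV]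
lemma dV4 : dV k (e k 4) = e k 4 ⊗ₜ e k 0 + e k 0 ⊗ₜ e k 4 + e k 1 ⊗ₜ e k 1 := by simp [dV]
lemma cV0 : cV k (e k 0) = 1 := by simp [cV]
lemma cV1 : cV k (e k 1) = 0 := by simp [cV]
lemma cV2 : cV k (e k 2) = 0 := by simp [cV]
lemma cV3 : cV k (e k 3) = 0 := by simp [cV]
lemma cV4 : cV k (e k 4) = 0 := by simp [cV]

lemma fin5 (P : Fin 5 → Prop) (h0 : P 0) (h1 : P 1) (h2 : P 2) (h3 : P 3) (h4 : P 4) : ∀ i, P i := by
  intro i; fin_cases i <;> assumption

noncomputable instance : Coalgebra k (V k) where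
  comul := dV k
  counit := cV k
  coassoc := by
    apply (e k).ext
    apply fin5 <;>
      simp [dV0, dV1, dV2, dV3, dV4, tmul_add, add_tmul] <;> abel
  rTensor_counit_comp_comul := by
    apply (e k).ext
    apply fin5 <;>
      simp [dV0, dV1, dV2, dV3, dV4, cV0, cV1, cV2, cV3, cV4]
  lTensor_counit_comp_comul := by
    apply (e k).ext
    apply fin5 <;>
      simp [dV0, dV1, dV2, dV3, dV4, cV0, cV1, cV2, cV3, cV4]

lemma comul_eq (x : V k) : comul (R := k) x = dV k x := rfl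
lemma counit_eq (x : V k) : counit (R := k) x = cV k x := rfl

/-- Multiplication table of the rack product. -/
noncomputable def tbl : Fin 5 → Fin 5 → V k :=
  ![![e k 0, 0, 0, 0, 0], ![e k 1, 0, e k 1, 0, 0], ![e k 2, -e k 1, 0, 0, 0],
    ![e k 3, -e k 4, e k 3, 0, 0], ![e k 4, 0, e k 4 + e k 4, 0, 0]]

/-- The rack product as a linear map. -/
noncomputable def opV : V k ⊗[k] V k →ₗ[k] V k :=
  TensorProduct.lift ((e k).constr k fun i => (e k).constr k fun j => tbl k i j)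

lemma opV_e (i j : Fin 5) : opV k (e k i ⊗ₜ e k j) = tbl k i j := by
  simp [opV]

lemma ext2 {M : Type*} [AddCommGroup M] [Module k M] {f g : V k ⊗[k] V k →ₗ[k] M}
    (h : ∀ i j, f (e k i ⊗ₜ e k j) = g (e k i ⊗ₜ e k j)) : f = g := by
  apply ((e k).tensorProduct (e k)).ext
  rintro ⟨i, j⟩
  simpa using h i j

lemma ext3 {M : Type*} [AddCommGroup M] [Module k M] {f g : (V k ⊗[k] V k) ⊗[k] V k →ₗ[k] M}
    (h : ∀ i j l, f ((e k i ⊗ₜ e k j) ⊗ₜ e k l) = g ((e k i ⊗ₜ e k j) ⊗ₜ e k l)) : f = g := by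
  apply (((e k).tensorProduct (e k)).tensorProduct (e k)).ext
  rintro ⟨⟨i, j⟩, l⟩
  simpa using h i j l

lemma opV_counit : counit (R := k) ∘ₗ opV k = counit (R := k) := by
  apply ext2
  apply fin5 <;> apply fin5 <;>
    simp [opV_e, tbl, counit_eq, cV0, cV1, cV2, cV3, cV4]

lemma opV_comul :
    TensorProduct.map (opV k) (opV k) ∘ₗ comul (R := k) = comul (R := k) ∘ₗ opV k := by
  apply ext2
  apply fin5 <;> apply fin5 <;>
    simp [opV_e, tbl, comul_eq, dV0, dV1, dV2, dV3, dV4, tmul_add, add_tmul, neg_tmul, tmul_neg] <;>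
    abel

lemma opV_sd : opV k ∘ₗ (opV k).rTensor (V k) =
    opV k ∘ₗ TensorProduct.map (opV k) (opV k) ∘ₗ
      (tensorTensorTensorComm k (V k) (V k) (V k) (V k)).toLinearMap ∘ₗ
        (comul (R := k)).lTensor (V k ⊗[k] V k) := by
  apply ext3
  apply fin5 <;> apply fin5 <;> apply fin5 <;>
    simp [opV_e, tbl, comul_eq, dV0, dV1, dV2, dV3, dV4, tmul_add, add_tmul, neg_tmul, tmul_neg]

/-- The example. -/
noncomputable def rack : RackBialgebra k (V k) where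
  one := e k 0
  op := ⟨opV k, opV_counit k, opV_comul k⟩
  comul_one := dV0 k
  counit_one := cV0 k
  self_distrib x y z := LinearMap.congr_fun (opV_sd k) ((x ⊗ₜ y) ⊗ₜ z)
  op_one x := by
    have : opV k ∘ₗ (TensorProduct.mk k (V k) (V k)).flip (e k 0) = LinearMap.id := by
      apply (e k).ext
      apply fin5 <;> simp [opV_e, tbl]
    exact LinearMap.congr_fun this x
  one_op x := by
    have : opV k ∘ₗ (TensorProduct.mk k (V k) (V k)) (e k 0) = (cV k).smulRight (e k 0) := by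
      apply (e k).ext
      apply fin5 <;> simp [opV_e, tbl, cV0, cV1, cV2, cV3, cV4]
    exact LinearMap.congr_fun this x
  counit_op x y := by
    have := LinearMap.congr_fun (opV_counit k) (x ⊗ₜ y)
    simpa [mul_comm] using this

lemma rack_op (x : V k ⊗[k] V k) : (rack k).op x = opV k x := rfl

theorem not_yd (H : Type v) [Ring H] [Bialgebra k H] : IsEmpty (YDRack (rack k) H) := by
  refine ⟨fun Y => ?_⟩
  have q0 : Y.q (e k 0) = 1 := Y.q_one
  have hact : ∀ i j, Y.act (e k i ⊗ₜ Y.q (e k j)) = tbl k i j := fun i j => by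
    rw [← Y.op_eq, rack_op, opV_e]
  have hc : ∀ i, comul (R := k) (Y.q (e k i)) =
      TensorProduct.map Y.q.toLinearMap Y.q.toLinearMap (dV k (e k i)) := fun i =>
    (CoalgHomClass.map_comp_comul_apply Y.q (e k i)).symm
  set U := Y.q (e k 1) with hU
  set W := Y.q (e k 2) with hW
  set B := Y.q (e k 3) with hB
  have cU : comul (R := k) U = U ⊗ₜ 1 + 1 ⊗ₜ U := by
    rw [hU, hc, dV1]; simp [q0]
  have cW : comul (R := k) W = W ⊗ₜ 1 + 1 ⊗ₜ W := by
    rw [hW, hc, dV2]; simp [q0]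
  have cB : comul (R := k) B = B ⊗ₜ 1 + 1 ⊗ₜ B + U ⊗ₜ W := by
    rw [hB, hc, dV3]; simp [q0, hU, hW]
  have a12 : Y.act (e k 1 ⊗ₜ W) = e k 1 := by rw [hW, hact]; simp [tbl]
  have a13 : Y.act (e k 1 ⊗ₜ B) = 0 := by rw [hB, hact]; simp [tbl]
  have a21 : Y.act (e k 2 ⊗ₜ U) = -e k 1 := by rw [hU, hact]; simp [tbl]
  have r1 : W * U + U = U * W := by
    have := Y.yd (e k 1) W
    rw [cW] at this
    simpa [Y.act_one, a12, ← hU] using this
  have r2 : B * U + U * U = U * B := by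
    have := Y.yd (e k 1) B
    rw [cB] at this
    simpa [Y.act_one, a12, a13, ← hU] using this
  have r3 := congrArg (comul (R := k)) r2
  rw [map_add, Bialgebra.comul_mul, Bialgebra.comul_mul, Bialgebra.comul_mul, cU, cB] at r3
  simp only [mul_add, add_mul, Algebra.TensorProduct.tmul_mul_tmul, mul_one, one_mul, ← r1, ← r2,
    tmul_add, add_tmul] at r3
  have r4 : U ⊗ₜ[k] U = 0 := by
    have := sub_eq_zero.mpr r3
    rw [← this]
    abel
  let φ : H →ₗ[k] k := (e k).coord 1 ∘ₗ Y.act ∘ₗ TensorProduct.mk k (V k) H (e k 2)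
  have hφ : φ U = -1 := by simp [φ, a21]
  have r5 := congrArg (fun t => LinearMap.mul' k k (TensorProduct.map φ φ t)) r4
  simp [hφ] at r5

end Pool.Agent.P.MP_abbe90_al
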